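import Pool.Agent.MP_9673d9_co.Poly

/-!
# The planar part

`T` is a finite subset of a plane curve of degree `k`, not on a line, `d` an integer with
`|d| ≤ |T| - 1`. Then some line through at least two points of `T` has
`|d + #(right side) - #(left side)| ≤ 3 k - 2`.
-/

set_option autoImplicit false

open Finset

namespace Pool.Agent.MP_9673d9_co

/-- the sign, as an integer -/
noncomputable def sg (x : ℝ) : ℤ := if 0 < x then 1 else if x < 0 then -1 else 0

theorem sg_pos {x : ℝ} (h : 0 < x) : sg x = 1 := if_pos h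

theorem sg_neg {x : ℝ} (h : x < 0) : sg x = -1 := by
  unfold sg
  rw [if_neg (by linarith), if_pos h]

theorem sg_zero : sg 0 = 0 := by
  unfold sg
  simp

theorem sg_mul_pos {a b : ℝ} (h : 0 < b) : sg (a * b) = sg a := by
  rcases lt_trichotomy a 0 with ha | ha | ha
  · rw [sg_neg ha, sg_neg (mul_neg_of_neg_of_pos ha h)]
  · rw [ha, zero_mul]
  · rw [sg_pos ha, sg_pos (mul_pos ha h)]

theorem sg_neg_arg (a : ℝ) : sg (-a) = - sg a := by
  rcases lt_trichotomy a 0 with ha | ha | ha
  · rw [sg_neg ha, sg_pos (by linarith)]; norm_num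
  · rw [ha, neg_zero, sg_zero]; norm_num
  · rw [sg_pos ha, sg_neg (by linarith)]

theorem abs_sg_le (a : ℝ) : |sg a| ≤ 1 := by
  rcases lt_trichotomy a 0 with ha | ha | ha
  · rw [sg_neg ha]; norm_num
  · rw [ha, sg_zero]; norm_num
  · rw [sg_pos ha]; norm_num

/-- sum of the signs -/
theorem sum_sg {α : Type*} (T : Finset α) (f : α → ℝ) :
    ∑ t ∈ T, sg (f t) = ((T.filter fun t => 0 < f t).card : ℤ) - (T.filter fun t => f t < 0).card := by
  classical
  rw [Finset.card_filter, Finset.card_filter]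
  push_cast
  rw [← Finset.sum_sub_distrib]
  refine Finset.sum_congr rfl fun t _ => ?_
  rcases lt_trichotomy (f t) 0 with ha | ha | ha
  · rw [sg_neg ha, if_neg (by linarith), if_pos ha]; norm_num
  · rw [ha, sg_zero]; simp
  · rw [sg_pos ha, if_pos ha, if_neg (by linarith)]; norm_num

/-- the sum of the signs, relative to a member of the set -/
theorem sum_sg_sub {α : Type*} (T : Finset α) (f : α → ℝ) (hf : Set.InjOn f T) {p : α}
    (hp : p ∈ T) :
    ∑ t ∈ T, sg (f t - f p) = (T.card : ℤ) - 1 - 2 * (T.filter fun t => f t < f p).card := by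
  classical
  rw [sum_sg]
  have h1 : (T.filter fun t => f t - f p < 0) = T.filter fun t => f t < f p := by
    refine Finset.filter_congr fun t _ => ?_
    rw [sub_neg]
  have h2 : (T.filter fun t => 0 < f t - f p) = T.filter fun t => f p < f t := by
    refine Finset.filter_congr fun t _ => ?_
    rw [sub_pos]
  rw [h1, h2]
  have h3 : T.card = (T.filter fun t => f t < f p).card + ((T.filter fun t => f p < f t).card + 1) := by
    rw [← Finset.card_filter_add_card_filter_not (s := T) (fun t => f t < f p)]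
    congr 1
    have h4 : (T.filter fun t => ¬ f t < f p) = insert p (T.filter fun t => f p < f t) := by
      ext t
      rw [Finset.mem_insert, Finset.mem_filter, Finset.mem_filter]
      constructor
      · rintro ⟨ht, h5⟩
        rcases eq_or_lt_of_le (not_lt.1 h5) with h6 | h6
        · left
          exact (hf ht hp h6.symm)
        · exact Or.inr ⟨ht, h6⟩
      · rintro (rfl | ⟨ht, h5⟩)
        · exact ⟨hp, lt_irrefl _⟩
        · exact ⟨ht, not_lt.2 h5.le⟩
    rw [h4, Finset.card_insert_of_notMem]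
    simp
  omega

/-- ranks -/
theorem exists_rank {α : Type*} [DecidableEq α] (f : α → ℝ) (T : Finset α) :
    Set.InjOn f T → ∀ r < T.card, ∃ p ∈ T, (T.filter fun t => f t < f p).card = r := by
  induction T using Finset.induction_on_max_value f with
  | empty =>
    intro _ r hr
    exact absurd hr (Nat.not_lt_zero r)
  | insert a s ha hmax ih =>
    intro hf r hr
    have hlt : ∀ x ∈ s, f x < f a := by
      intro x hx
      refine lt_of_le_of_ne (hmax x hx) fun h => ha ?_
      have := hf (Finset.mem_coe.2 (Finset.mem_insert_of_mem hx))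
        (Finset.mem_coe.2 (Finset.mem_insert_self a s)) h
      rwa [← this]
    rw [Finset.card_insert_of_notMem ha] at hr
    rcases Nat.lt_or_ge r s.card with h | h
    · obtain ⟨p, hp, hpr⟩ := ih (hf.mono (by
        intro x hx
        exact Finset.mem_coe.2 (Finset.mem_insert_of_mem hx))) r h
      refine ⟨p, Finset.mem_insert_of_mem hp, ?_⟩
      rw [Finset.filter_insert, if_neg (not_lt.2 (hmax p hp))]
      exact hpr
    · refine ⟨a, Finset.mem_insert_self a s, ?_⟩
      rw [Finset.filter_insert, if_neg (lt_irrefl _), Finset.filter_true_of_mem hlt]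
      omega

/-- a point with a prescribed value of the sum of the signs -/
theorem exists_start {α : Type*} (f : α → ℝ) (T : Finset α) (hf : Set.InjOn f T) (d : ℤ)
    (hd : |d| ≤ (T.card : ℤ) - 1) :
    ∃ p ∈ T, 0 ≤ d + ∑ t ∈ T, sg (f t - f p) ∧ d + ∑ t ∈ T, sg (f t - f p) ≤ 1 := by
  classical
  rw [abs_le] at hd
  obtain ⟨p, hp, hpr⟩ := exists_rank f T hf (((T.card : ℤ) - 1 + d) / 2).toNat (by omega)
  refine ⟨p, hp, ?_⟩
  rw [sum_sg_sub T f hf hp, hpr]
  omega

/-- rotation about a point `y` of the line `σ (x - p.1) = y - p.2` which lies on no other line on which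
`P` vanishes -/
theorem rotate {k : ℕ} {P : ℝ × ℝ → ℝ} (hP : PF k P) (T : Finset (ℝ × ℝ))
    (hinj : Set.InjOn (Prod.fst : ℝ × ℝ → ℝ) T) (hT : ∀ t ∈ T, P t = 0) (d : ℤ) (σ : ℝ) (p y : ℝ × ℝ)
    (hy : y ∈ T) (hyp : σ * (y.1 - p.1) - (y.2 - p.2) = 0)
    (hne : ∃ t ∈ T, σ * (t.1 - p.1) - (t.2 - p.2) ≠ 0)
    (hsimple : ∀ w : ℝ × ℝ, σ * w.1 - w.2 ≠ 0 → ∃ s : ℝ, P (y + s • w) ≠ 0) :
    ∃ α β γ : ℝ, 2 ≤ (T.filter fun t => α * t.1 + β * t.2 + γ = 0).card ∧
      |d + ∑ t ∈ T, sg (α * t.1 + β * t.2 + γ)| ≤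
        |d + ∑ t ∈ T, (if σ * (t.1 - p.1) - (t.2 - p.2) = 0 then sg (t.1 - y.1) else
          sg (σ * (t.1 - p.1) - (t.2 - p.2)))| + k - 1 := by
  classical
  set h : ℝ × ℝ → ℝ := fun x => σ * (x.1 - p.1) - (x.2 - p.2) with hh
  set N := T.filter fun t => h t ≠ 0 with hN
  have hNne : N.Nonempty := by
    obtain ⟨t, ht, h1⟩ := hne
    exact ⟨t, Finset.mem_filter.2 ⟨ht, h1⟩⟩
  obtain ⟨t1, ht1, hmin⟩ := Finset.exists_min_image N (fun t => (t.1 - y.1) / h t) hNne
  set M : ℝ := -((t1.1 - y.1) / h t1) with hM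
  set g : ℝ × ℝ → ℝ := fun x => (x.1 - y.1) + M * h x with hg
  have hgt : ∀ t ∈ N, g t = h t * ((t.1 - y.1) / h t - (t1.1 - y.1) / h t1) := by
    intro t ht
    have h1 : h t ≠ 0 := (Finset.mem_filter.1 ht).2
    simp only [hg, hM]
    field_simp
    ring
  have hgt1 : g t1 = 0 := by rw [hgt t1 ht1, sub_self, mul_zero]
  have hgy : g y = 0 := by
    simp only [hg]
    rw [show h y = 0 from hyp]
    ring
  have hy1 : h y = 0 := hyp
  have ht1' := Finset.mem_filter.1 ht1
  have hyt1 : y ≠ t1 := by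
    rintro rfl
    exact ht1'.2 hy1
  refine ⟨1 + M * σ, -M, -y.1 - M * σ * p.1 + M * p.2, ?_, ?_⟩
  · have e : ∀ x : ℝ × ℝ, (1 + M * σ) * x.1 + -M * x.2 + (-y.1 - M * σ * p.1 + M * p.2) = g x := by
      intro x
      simp only [hg, hh]
      ring
    simp only [e]
    have h1 : ({y, t1} : Finset (ℝ × ℝ)) ⊆ T.filter fun t => g t = 0 := by
      intro x hx
      rw [Finset.mem_insert, Finset.mem_singleton] at hx
      rcases hx with rfl | rfl
      · exact Finset.mem_filter.2 ⟨hy, hgy⟩
      · exact Finset.mem_filter.2 ⟨ht1'.1, hgt1⟩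
    have h2 := Finset.card_le_card h1
    rwa [Finset.card_pair hyt1] at h2
  · have e : ∀ x : ℝ × ℝ, (1 + M * σ) * x.1 + -M * x.2 + (-y.1 - M * σ * p.1 + M * p.2) = g x := by
      intro x
      simp only [hg, hh]
      ring
    simp only [e]
    set Z := N.filter fun t => g t = 0 with hZ
    -- the number of points of `T` on the new line
    have hZk : (Z.card : ℤ) + 1 ≤ k := by
      obtain ⟨s0, hs0⟩ := hsimple (M, 1 + M * σ) (by
        simp only
        intro h0
        have : (-1 : ℝ) = 0 := by linear_combination h0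
        norm_num at this)
      have h1 := hP.card_zeros y (M, 1 + M * σ) ⟨s0, hs0⟩ ((insert y Z).image fun t => -h t) (by
        intro s hs
        rw [Finset.mem_image] at hs
        obtain ⟨t, ht, rfl⟩ := hs
        have h2 : t ∈ T ∧ g t = 0 := by
          rw [Finset.mem_insert] at ht
          rcases ht with rfl | ht
          · exact ⟨hy, hgy⟩
          · rw [hZ, Finset.mem_filter] at ht
            exact ⟨(Finset.mem_filter.1 ht.1).1, ht.2⟩
        have h3 : y + (-h t) • ((M, 1 + M * σ) : ℝ × ℝ) = t := by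
          have h4 : (t.1 - y.1) + M * h t = 0 := h2.2
          have h5 : h t = σ * (t.1 - y.1) - (t.2 - y.2) := by
            have h6 : h y = 0 := hyp
            simp only [hh] at h6 ⊢
            linear_combination h6
          ext
          · simp only [Prod.fst_add, Prod.smul_fst, smul_eq_mul]
            linear_combination -h4
          · simp only [Prod.snd_add, Prod.smul_snd, smul_eq_mul]
            linear_combination -σ * h4 - h5
        rw [h3]
        exact hT t h2.1)
      have h6 : y ∉ Z := by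
        intro h7
        rw [hZ, Finset.mem_filter, hN, Finset.mem_filter] at h7
        exact h7.1.2 hy1
      rw [Finset.card_image_of_injOn, Finset.card_insert_of_notMem h6] at h1
      · exact_mod_cast h1
      · intro a ha b hb hab
        have h8 : ∀ t ∈ (insert y Z : Finset (ℝ × ℝ)), t ∈ T ∧ g t = 0 := by
          intro t ht
          rw [Finset.mem_insert] at ht
          rcases ht with rfl | ht
          · exact ⟨hy, hgy⟩
          · rw [hZ, Finset.mem_filter] at ht
            exact ⟨(Finset.mem_filter.1 ht.1).1, ht.2⟩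
        have h9 := h8 a ha
        have h10 := h8 b hb
        refine hinj h9.1 h10.1 ?_
        have h11 : (a.1 - y.1) + M * h a = 0 := h9.2
        have h12 : (b.1 - y.1) + M * h b = 0 := h10.2
        have h13 : h a = h b := neg_injective hab
        rw [h13] at h11
        linarith
    -- comparison of the sums
    have hsum : ∑ t ∈ T, sg (g t) = ∑ t ∈ T, (if h t = 0 then sg (t.1 - y.1) else sg (h t)) -
        ∑ t ∈ Z, sg (h t) := by
      have h1 : ∑ t ∈ Z, sg (h t) = ∑ t ∈ T, if (h t ≠ 0 ∧ g t = 0) then sg (h t) else 0 := by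
        rw [hZ, hN, Finset.filter_filter, Finset.sum_filter]
      rw [h1, ← Finset.sum_sub_distrib]
      refine Finset.sum_congr rfl fun t ht => ?_
      by_cases h0 : h t = 0
      · rw [if_pos h0, if_neg (by rintro ⟨h2, -⟩; exact h2 h0), sub_zero]
        simp only [hg]
        rw [h0, mul_zero, add_zero]
      · rw [if_neg h0]
        by_cases h2 : g t = 0
        · rw [if_pos ⟨h0, h2⟩, h2, sg_zero, sub_self]
        · rw [if_neg (by rintro ⟨-, h3⟩; exact h2 h3), sub_zero]
          have htN : t ∈ N := Finset.mem_filter.2 ⟨ht, h0⟩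
          have h3 := hgt t htN
          have h4 := hmin t htN
          rw [h3]
          refine sg_mul_pos ?_
          rcases eq_or_lt_of_le h4 with h5 | h5
          · exfalso
            apply h2
            rw [h3, h5, sub_self, mul_zero]
          · exact sub_pos.2 h5
    rw [hsum]
    have h1 : |∑ t ∈ Z, sg (h t)| ≤ Z.card := by
      refine (Finset.abs_sum_le_sum_abs _ _).trans ?_
      refine (Finset.sum_le_sum fun t _ => abs_sg_le (h t)).trans ?_
      simp
    have h2 : |d + (∑ t ∈ T, (if h t = 0 then sg (t.1 - y.1) else sg (h t)) -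
        ∑ t ∈ Z, sg (h t))| ≤ |d + ∑ t ∈ T, (if h t = 0 then sg (t.1 - y.1) else sg (h t))| +
          |∑ t ∈ Z, sg (h t)| := by
      rw [← add_sub_assoc]
      exact abs_sub _ _
    refine h2.trans ?_
    have h3 : |d + ∑ t ∈ T, (if h t = 0 then sg (t.1 - y.1) else sg (h t))| +
        |∑ t ∈ Z, sg (h t)| ≤ |d + ∑ t ∈ T, (if h t = 0 then sg (t.1 - y.1) else sg (h t))| +
          ((k : ℤ) - 1) := by
      gcongr
      omega
    refine h3.trans (le_of_eq ?_)
    ring

/-- counting members at most `f p` -/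
theorem card_le_eq {α : Type*} [DecidableEq α] (T : Finset α) (f : α → ℝ) (hf : Set.InjOn f T)
    {p : α} (hp : p ∈ T) :
    (T.filter fun t => f t ≤ f p).card = (T.filter fun t => f t < f p).card + 1 := by
  have h4 : (T.filter fun t => f t ≤ f p) = insert p (T.filter fun t => f t < f p) := by
    ext t
    rw [Finset.mem_insert, Finset.mem_filter, Finset.mem_filter]
    constructor
    · rintro ⟨ht, h5⟩
      rcases eq_or_lt_of_le h5 with h6 | h6
      · left
        exact (hf ht hp h6)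
      · exact Or.inr ⟨ht, h6⟩
    · rintro (rfl | ⟨ht, h5⟩)
      · exact ⟨hp, le_refl _⟩
      · exact ⟨ht, h5.le⟩
  rw [h4, Finset.card_insert_of_notMem]
  simp

/-- the planar lemma, if no two points of `T` have the same first coordinate -/
theorem planar_inj {k : ℕ} {P : ℝ × ℝ → ℝ} (hP : PF k P) (hP0 : ∃ x, P x ≠ 0)
    (T : Finset (ℝ × ℝ)) (hinj : Set.InjOn (Prod.fst : ℝ × ℝ → ℝ) T) (hT : ∀ t ∈ T, P t = 0)
    (hnc : ∀ α β γ : ℝ, (∀ t ∈ T, α * t.1 + β * t.2 + γ = 0) → α = 0 ∧ β = 0) (d : ℤ)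
    (hd : |d| ≤ (T.card : ℤ) - 1) :
    ∃ α β γ : ℝ, 2 ≤ (T.filter fun t => α * t.1 + β * t.2 + γ = 0).card ∧
      |d + ∑ t ∈ T, sg (α * t.1 + β * t.2 + γ)| ≤ 3 * (k : ℤ) - 2 := by
  classical
  obtain ⟨p, hp, hΨ0, hΨ1⟩ := exists_start (Prod.fst : ℝ × ℝ → ℝ) T hinj d hd
  -- there is a second point
  have hE : (T.erase p).Nonempty := by
    rw [Finset.nonempty_iff_ne_empty]
    intro h0
    have h1 : ∀ t ∈ T, t = p := by
      intro t ht
      by_contra hne
      have : t ∈ T.erase p := Finset.mem_erase.2 ⟨hne, ht⟩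
      rw [h0] at this
      exact absurd this (Finset.notMem_empty t)
    have h2 := hnc 1 0 (-p.1) (by
      intro t ht
      rw [h1 t ht]
      ring)
    exact one_ne_zero h2.1
  obtain ⟨t0, ht0, hmax⟩ := Finset.exists_max_image (T.erase p)
    (fun t => (t.2 - p.2) / (t.1 - p.1)) hE
  set σ : ℝ := (t0.2 - p.2) / (t0.1 - p.1) with hσ
  set h : ℝ × ℝ → ℝ := fun x => σ * (x.1 - p.1) - (x.2 - p.2) with hh
  have hfst : ∀ t ∈ T, t ≠ p → t.1 - p.1 ≠ 0 := by
    intro t ht hne h0
    exact hne (hinj ht hp (sub_eq_zero.1 h0))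
  have hht : ∀ t ∈ T, t ≠ p → h t = (t.1 - p.1) * (σ - (t.2 - p.2) / (t.1 - p.1)) := by
    intro t ht hne
    have h0 := hfst t ht hne
    simp only [hh]
    field_simp
  have hp1 : h p = 0 := by simp only [hh]; ring
  have ht0' := Finset.mem_erase.1 ht0
  have ht01 : h t0 = 0 := by
    rw [hht t0 ht0'.2 ht0'.1, ← hσ, sub_self, mul_zero]
  -- the value at `p`
  have hval : ∀ t ∈ T, h t ≠ 0 → sg (h t) = sg (t.1 - p.1) := by
    intro t ht hne
    have htp : t ≠ p := fun h0 => hne (by rw [h0, hp1])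
    have h1 := hmax t (Finset.mem_erase.2 ⟨htp, ht⟩)
    rw [hht t ht htp]
    refine sg_mul_pos ?_
    rcases eq_or_lt_of_le h1 with h2 | h2
    · exfalso
      apply hne
      rw [hht t ht htp, h2, sub_self, mul_zero]
    · exact sub_pos.2 h2
  set Λ := T.filter fun t => h t = 0 with hΛ
  have hΛT : Λ ⊆ T := Finset.filter_subset _ _
  have hinjΛ : Set.InjOn (Prod.fst : ℝ × ℝ → ℝ) Λ := hinj.mono (Finset.coe_subset.2 hΛT)
  have hpΛ : p ∈ Λ := Finset.mem_filter.2 ⟨hp, hp1⟩
  have ht0Λ : t0 ∈ Λ := Finset.mem_filter.2 ⟨ht0'.2, ht01⟩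
  -- there is a point outside the line
  have hne : ∃ t ∈ T, h t ≠ 0 := by
    by_contra hcon
    push Not at hcon
    have h2 := hnc σ (-1) (-(σ * p.1) + p.2) (by
      intro t ht
      have h3 := hcon t ht
      simp only [hh] at h3
      linear_combination h3)
    norm_num at h2
  set E : ℤ := d + ∑ t ∈ T, sg (h t) with hE0
  have hPsi : ∀ y ∈ Λ, d + ∑ t ∈ T, (if h t = 0 then sg (t.1 - y.1) else sg (h t)) =
      E + (Λ.card : ℤ) - 1 - 2 * (Λ.filter fun t => t.1 < y.1).card := by
    intro y hy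
    have h1 : ∑ t ∈ T, (if h t = 0 then sg (t.1 - y.1) else sg (h t)) =
        ∑ t ∈ T, sg (h t) + ∑ t ∈ Λ, sg (t.1 - y.1) := by
      rw [hΛ, Finset.sum_filter, ← Finset.sum_add_distrib]
      refine Finset.sum_congr rfl fun t _ => ?_
      by_cases h0 : h t = 0
      · rw [if_pos h0, if_pos h0, h0, sg_zero, zero_add]
      · rw [if_neg h0, if_neg h0, add_zero]
    have h2 := sum_sg_sub Λ (Prod.fst : ℝ × ℝ → ℝ) hinjΛ hy
    rw [h1, h2, hE0]
    ring
  have hPsip : d + ∑ t ∈ T, (if h t = 0 then sg (t.1 - p.1) else sg (h t)) =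
      d + ∑ t ∈ T, sg (t.1 - p.1) := by
    congr 1
    refine Finset.sum_congr rfl fun t ht => ?_
    by_cases h0 : h t = 0
    · rw [if_pos h0]
    · rw [if_neg h0, hval t ht h0]
  have hk : 1 ≤ k := by
    by_contra hk
    have hk0 : k = 0 := by omega
    subst hk0
    obtain ⟨x, hx⟩ := hP0
    have h1 := hP.card_zeros p (x - p) ⟨1, by rwa [one_smul, add_sub_cancel]⟩ {0} (by
      intro s hs
      rw [Finset.mem_singleton] at hs
      rw [hs, zero_smul, add_zero]
      exact hT p hp)
    simp at h1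
  by_cases hEk : |E| ≤ 3 * (k : ℤ) - 2
  · -- the first line is good
    refine ⟨σ, -1, -(σ * p.1) + p.2, ?_, ?_⟩
    · have e : ∀ x : ℝ × ℝ, σ * x.1 + -1 * x.2 + (-(σ * p.1) + p.2) = h x := by
        intro x
        simp only [hh]
        ring
      simp only [e]
      have h1 : ({p, t0} : Finset (ℝ × ℝ)) ⊆ Λ := by
        intro x hx
        rw [Finset.mem_insert, Finset.mem_singleton] at hx
        rcases hx with rfl | rfl
        · exact hpΛ
        · exact ht0Λ
      have h2 := Finset.card_le_card h1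
      rwa [Finset.card_pair (Ne.symm ht0'.1)] at h2
    · have e : ∀ x : ℝ × ℝ, σ * x.1 + -1 * x.2 + (-(σ * p.1) + p.2) = h x := by
        intro x
        simp only [hh]
        ring
      simp only [e]
      exact hEk
  -- the first line has many points
  have hp2 := hPsi p hpΛ
  rw [hPsip] at hp2
  have hcp : (Λ.filter fun t => t.1 ≤ p.1).card = (Λ.filter fun t => t.1 < p.1).card + 1 :=
    card_le_eq Λ (Prod.fst : ℝ × ℝ → ℝ) hinjΛ hpΛ
  have hcard : (Λ.filter fun t => t.1 < p.1).card + (Λ.filter fun t => p.1 ≤ t.1).card = Λ.card := by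
    rw [← Finset.card_filter_add_card_filter_not (s := Λ) (fun t => t.1 < p.1)]
    congr 2
    refine Finset.filter_congr fun t _ => ?_
    rw [not_lt]
  have hpge : 0 < (Λ.filter fun t => p.1 ≤ t.1).card :=
    Finset.card_pos.2 ⟨p, Finset.mem_filter.2 ⟨hpΛ, le_refl _⟩⟩
  have hΛk : k + 1 ≤ Λ.card := by
    rw [abs_le] at hEk
    omega
  -- `P` vanishes on the line
  have hzero : ∀ s : ℝ, P (p + s • ((1, σ) : ℝ × ℝ)) = 0 := by
    by_contra hcon
    push Not at hcon
    have h1 := hP.card_zeros p (1, σ) hcon (Λ.image fun t => t.1 - p.1) (by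
      intro s hs
      rw [Finset.mem_image] at hs
      obtain ⟨t, ht, rfl⟩ := hs
      rw [hΛ, Finset.mem_filter] at ht
      have h2 : p + (t.1 - p.1) • ((1, σ) : ℝ × ℝ) = t := by
        have h3 : σ * (t.1 - p.1) - (t.2 - p.2) = 0 := ht.2
        ext
        · simp only [Prod.fst_add, Prod.smul_fst, smul_eq_mul]
          ring
        · simp only [Prod.snd_add, Prod.smul_snd, smul_eq_mul]
          linear_combination h3
      rw [h2]
      exact hT t ht.1)
    rw [Finset.card_image_of_injOn] at h1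
    · omega
    · intro a ha b hb hab
      exact hinjΛ ha hb (sub_left_injective hab)
  have hlin : ∀ x : ℝ × ℝ, h x = 0 → x = p + (x.1 - p.1) • ((1, σ) : ℝ × ℝ) := by
    intro x hx
    have h3 : σ * (x.1 - p.1) - (x.2 - p.2) = 0 := hx
    ext
    · simp only [Prod.fst_add, Prod.smul_fst, smul_eq_mul]
      ring
    · simp only [Prod.snd_add, Prod.smul_snd, smul_eq_mul]
      linear_combination -h3
  -- the points of the line on another line on which `P` vanishes
  let l : ℝ × ℝ →ₗ[ℝ] ℝ := σ • LinearMap.fst ℝ ℝ ℝ - LinearMap.snd ℝ ℝ ℝ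
  have hl : ∀ x : ℝ × ℝ, l x = σ * x.1 - x.2 := fun x => rfl
  have hlh : ∀ x : ℝ × ℝ, l x + (-(σ * p.1 - p.2)) = h x := by
    intro x
    rw [hl]
    simp only [hh]
    ring
  set B := Λ.filter fun y => ∃ w : ℝ × ℝ, l w ≠ 0 ∧ ∀ s : ℝ, P (y + s • w) = 0 with hB
  have hBk : B.card + 1 ≤ k := by
    refine PF.bad_card l (-(σ * p.1 - p.2)) (0, -1) (by rw [hl]; norm_num) p (1, σ) ?_ k P hP hP0 ?_
      B ?_
    · intro x hx
      rw [hlh] at hx
      exact ⟨_, hlin x hx⟩
    · intro x hx
      rw [hlh] at hx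
      rw [hlin x hx]
      exact hzero _
    · intro y hy
      rw [hB, Finset.mem_filter, hΛ, Finset.mem_filter] at hy
      rw [hlh]
      exact ⟨hy.1.2, hy.2⟩
  -- a simple point with a small value
  obtain ⟨y, hyΛ, hyB, hyv⟩ : ∃ y ∈ Λ, y ∉ B ∧
      |d + ∑ t ∈ T, (if h t = 0 then sg (t.1 - y.1) else sg (h t))| ≤ 2 * (k : ℤ) - 1 := by
    rw [abs_le] at hEk
    by_cases hEpos : 0 ≤ E
    · -- go to the left
      have hU : ((Λ.filter fun t => t.1 ≤ p.1) \ B).Nonempty := by
        rw [← Finset.card_pos]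
        have h1 := Finset.le_card_sdiff B (Λ.filter fun t => t.1 ≤ p.1)
        omega
      obtain ⟨y, hy, hymax⟩ := Finset.exists_max_image _ (fun t : ℝ × ℝ => t.1) hU
      rw [Finset.mem_sdiff, Finset.mem_filter] at hy
      refine ⟨y, hy.1.1, hy.2, ?_⟩
      rw [hPsi y hy.1.1]
      have hcy : (Λ.filter fun t => t.1 ≤ y.1).card = (Λ.filter fun t => t.1 < y.1).card + 1 :=
        card_le_eq Λ (Prod.fst : ℝ × ℝ → ℝ) hinjΛ hy.1.1
      have h2 : (Λ.filter fun t => t.1 ≤ p.1) ⊆ (Λ.filter fun t => t.1 ≤ y.1) ∪ B := by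
        intro t ht
        rw [Finset.mem_union]
        by_cases htB : t ∈ B
        · exact Or.inr htB
        · left
          have h3 := hymax t (Finset.mem_sdiff.2 ⟨ht, htB⟩)
          exact Finset.mem_filter.2 ⟨(Finset.mem_filter.1 ht).1, h3⟩
      have h3 := (Finset.card_le_card h2).trans (Finset.card_union_le _ _)
      have h4 : (Λ.filter fun t => t.1 < y.1).card ≤ (Λ.filter fun t => t.1 < p.1).card := by
        refine Finset.card_le_card fun t ht => ?_
        rw [Finset.mem_filter] at ht ⊢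
        exact ⟨ht.1, lt_of_lt_of_le ht.2 hy.1.2⟩
      rw [abs_le]
      omega
    · -- go to the right
      have hU : ((Λ.filter fun t => p.1 ≤ t.1) \ B).Nonempty := by
        rw [← Finset.card_pos]
        have h1 := Finset.le_card_sdiff B (Λ.filter fun t => p.1 ≤ t.1)
        omega
      obtain ⟨y, hy, hymin⟩ := Finset.exists_min_image _ (fun t : ℝ × ℝ => t.1) hU
      rw [Finset.mem_sdiff, Finset.mem_filter] at hy
      refine ⟨y, hy.1.1, hy.2, ?_⟩
      rw [hPsi y hy.1.1]
      have h2 : (Λ.filter fun t => t.1 < y.1) ⊆ (Λ.filter fun t => t.1 < p.1) ∪ B := by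
        intro t ht
        rw [Finset.mem_union]
        by_cases htB : t ∈ B
        · exact Or.inr htB
        · left
          rw [Finset.mem_filter] at ht ⊢
          refine ⟨ht.1, ?_⟩
          by_contra h5
          have h3 := hymin t (Finset.mem_sdiff.2 ⟨Finset.mem_filter.2 ⟨ht.1, not_lt.1 h5⟩, htB⟩)
          linarith [ht.2]
      have h3 := (Finset.card_le_card h2).trans (Finset.card_union_le _ _)
      have h4 : (Λ.filter fun t => t.1 < p.1).card ≤ (Λ.filter fun t => t.1 < y.1).card := by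
        refine Finset.card_le_card fun t ht => ?_
        rw [Finset.mem_filter] at ht ⊢
        exact ⟨ht.1, lt_of_lt_of_le ht.2 hy.1.2⟩
      rw [abs_le]
      omega
  rw [hΛ, Finset.mem_filter] at hyΛ
  obtain ⟨α, β, γ, h1, h2⟩ := rotate hP T hinj hT d σ p y hyΛ.1 hyΛ.2 hne (by
    intro w hw
    by_contra hcon
    push Not at hcon
    apply hyB
    rw [hB, Finset.mem_filter, hΛ, Finset.mem_filter]
    exact ⟨hyΛ, w, hw, hcon⟩)
  refine ⟨α, β, γ, h1, h2.trans ?_⟩
  have h5 : |d + ∑ t ∈ T, (if σ * (t.1 - p.1) - (t.2 - p.2) = 0 then sg (t.1 - y.1) else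
          sg (σ * (t.1 - p.1) - (t.2 - p.2)))| ≤ 2 * (k : ℤ) - 1 := hyv
  linarith

/-- the planar lemma -/
theorem planar {k : ℕ} {P : ℝ × ℝ → ℝ} (hP : PF k P) (hP0 : ∃ x, P x ≠ 0)
    (T : Finset (ℝ × ℝ)) (hT : ∀ t ∈ T, P t = 0)
    (hnc : ∀ α β γ : ℝ, (∀ t ∈ T, α * t.1 + β * t.2 + γ = 0) → α = 0 ∧ β = 0) (d : ℤ)
    (hd : |d| ≤ (T.card : ℤ) - 1) :
    ∃ α β γ : ℝ, 2 ≤ (T.filter fun t => α * t.1 + β * t.2 + γ = 0).card ∧
      |d + ∑ t ∈ T, sg (α * t.1 + β * t.2 + γ)| ≤ 3 * (k : ℤ) - 2 := by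
  classical
  obtain ⟨μ, hμ⟩ := Infinite.exists_notMem_finset
    ((T ×ˢ T).image fun z : (ℝ × ℝ) × (ℝ × ℝ) => -((z.1.1 - z.2.1) / (z.1.2 - z.2.2)))
  have hA : Set.InjOn (fun t : ℝ × ℝ => t.1 + μ * t.2) T := by
    intro t ht t' ht' h
    by_contra hne
    apply hμ
    rw [Finset.mem_image]
    refine ⟨(t, t'), Finset.mem_product.2 ⟨ht, ht'⟩, ?_⟩
    simp only at h
    have h2 : t.2 - t'.2 ≠ 0 := by
      intro h0
      apply hne
      ext
      · linear_combination h - μ * h0
      · linear_combination h0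
    simp only
    rw [neg_eq_iff_eq_neg, div_eq_iff h2]
    linear_combination h
  let A : ℝ × ℝ → ℝ × ℝ := fun t => (t.1 + μ * t.2, t.2)
  have hAinj : Set.InjOn A T := by
    intro t ht t' ht' h
    exact hA ht ht' (congrArg Prod.fst h)
  let B : ℝ × ℝ →ₗ[ℝ] ℝ × ℝ :=
    (LinearMap.fst ℝ ℝ ℝ - μ • LinearMap.snd ℝ ℝ ℝ).prod (LinearMap.snd ℝ ℝ ℝ)
  have hBA : ∀ t : ℝ × ℝ, B (A t) + 0 = t := by
    intro t
    rw [add_zero]
    ext
    · change (t.1 + μ * t.2) - μ * t.2 = t.1
      ring
    · rfl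
  have hsumA : ∀ α β γ : ℝ, ∑ t ∈ T.image A, sg (α * t.1 + β * t.2 + γ) =
      ∑ t ∈ T, sg (α * t.1 + (α * μ + β) * t.2 + γ) := by
    intro α β γ
    rw [Finset.sum_image hAinj]
    refine Finset.sum_congr rfl fun t _ => ?_
    congr 1
    simp only [A]
    ring
  obtain ⟨α, β, γ, h1, h2⟩ := planar_inj (hP.comp B 0) (by
      obtain ⟨x, hx⟩ := hP0
      exact ⟨A x, by rwa [hBA]⟩) (T.image A) (by
      intro t ht t' ht' h
      rw [Finset.mem_coe, Finset.mem_image] at ht ht'
      obtain ⟨s, hs, rfl⟩ := ht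
      obtain ⟨s', hs', rfl⟩ := ht'
      rw [hA hs hs' h]) (by
      intro t ht
      rw [Finset.mem_image] at ht
      obtain ⟨s, hs, rfl⟩ := ht
      rw [hBA]
      exact hT s hs) (by
      intro α β γ h
      obtain ⟨h3, h4⟩ := hnc α (α * μ + β) γ (by
        intro t ht
        have h5 := h (A t) (Finset.mem_image_of_mem A ht)
        simp only [A] at h5
        linear_combination h5)
      rw [h3, zero_mul, zero_add] at h4
      exact ⟨h3, h4⟩) d (by rwa [Finset.card_image_of_injOn hAinj])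
  refine ⟨α, α * μ + β, γ, ?_, ?_⟩
  · rw [Finset.filter_image, Finset.card_image_of_injOn (hAinj.mono (by
      intro x hx
      rw [Finset.mem_coe, Finset.mem_filter] at hx
      exact hx.1))] at h1
    refine h1.trans (Finset.card_le_card fun t ht => ?_)
    rw [Finset.mem_filter] at ht ⊢
    refine ⟨ht.1, ?_⟩
    have h5 := ht.2
    simp only [A] at h5
    linear_combination h5
  · rwa [hsumA] at h2

end Pool.Agent.MP_9673d9_co
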