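import Mathlib

/-!
# Polynomial functions on real vector spaces

`PF k F`: the function `F` is a polynomial function of degree at most `k`, i.e. a sum of products of at
most `k` affine functions.  Restriction to lines, number of zeros, division by an affine function.
-/

set_option autoImplicit false

namespace Pool.Agent.MP_9673d9_co

/-- polynomial functions of degree at most `k` -/
inductive PF {V : Type*} [AddCommGroup V] [Module ℝ V] : ℕ → (V → ℝ) → Prop
  | const (k : ℕ) (c : ℝ) : PF k (fun _ => c)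
  | add {k : ℕ} {F G : V → ℝ} : PF k F → PF k G → PF k (fun x => F x + G x)
  | mul {k : ℕ} {F : V → ℝ} (l : V →ₗ[ℝ] ℝ) (c : ℝ) : PF k F →
      PF (k + 1) (fun x => (l x + c) * F x)

namespace PF

variable {V W : Type*} [AddCommGroup V] [Module ℝ V] [AddCommGroup W] [Module ℝ W]

theorem succ {k : ℕ} {F : V → ℝ} (h : PF k F) : PF (k + 1) F := by
  induction h with
  | const k c => exact const _ _
  | add _ _ h1 h2 => exact add h1 h2
  | mul l c _ h => exact mul l c h

theorem mono {k k' : ℕ} (hk : k ≤ k') {F : V → ℝ} (h : PF k F) : PF k' F := by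
  induction hk with
  | refl => exact h
  | step _ ih => exact ih.succ

theorem smul {k : ℕ} {F : V → ℝ} (h : PF k F) (a : ℝ) : PF k (fun x => a * F x) := by
  induction h with
  | const k c => exact const _ _
  | @add k F G _ _ h1 h2 =>
    have h3 := add h1 h2
    have e : (fun x => a * (F x + G x)) = fun x => a * F x + a * G x := by
      funext x; ring
    rw [e]; exact h3
  | @mul k F l c _ h =>
    have h3 := mul l c h
    have e : (fun x => a * ((l x + c) * F x)) = fun x => (l x + c) * (a * F x) := by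
      funext x; ring
    rw [e]; exact h3

theorem sum {k : ℕ} {ι : Type*} (s : Finset ι) {F : ι → V → ℝ} (h : ∀ i ∈ s, PF k (F i)) :
    PF k (fun x => ∑ i ∈ s, F i x) := by
  classical
  induction s using Finset.induction_on with
  | empty =>
    have e : (fun x : V => ∑ i ∈ (∅ : Finset ι), F i x) = fun _ => 0 := by
      funext x; simp
    rw [e]; exact const _ _
  | insert i s hi ih =>
    have e : (fun x : V => ∑ j ∈ insert i s, F j x) = fun x => F i x + ∑ j ∈ s, F j x := by
      funext x; rw [Finset.sum_insert hi]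
    rw [e]
    exact add (h i (Finset.mem_insert_self i s)) (ih fun j hj => h j (Finset.mem_insert_of_mem hj))

theorem mul' {a b : ℕ} {F G : V → ℝ} (hF : PF a F) (hG : PF b G) :
    PF (a + b) (fun x => F x * G x) := by
  induction hF with
  | const k c => exact (hG.smul c).mono (by omega)
  | @add k F F' _ _ h1 h2 =>
    have h3 := add h1 h2
    have e : (fun x => (F x + F' x) * G x) = fun x => F x * G x + F' x * G x := by
      funext x; ring
    rw [e]; exact h3
  | @mul k F l c _ h =>
    have h3 := mul l c h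
    have e : (fun x => (l x + c) * F x * G x) = fun x => (l x + c) * (F x * G x) := by
      funext x; ring
    rw [e, show k + 1 + b = k + b + 1 by ring]; exact h3

/-- composition with an affine map -/
theorem comp {k : ℕ} {F : V → ℝ} (h : PF k F) (A : W →ₗ[ℝ] V) (b : V) :
    PF k (fun x => F (A x + b)) := by
  induction h with
  | const k c => exact const _ _
  | add _ _ h1 h2 => exact add h1 h2
  | @mul k F l c _ h =>
    have h3 := mul (l ∘ₗ A) (l b + c) h
    have e : (fun x => (l (A x + b) + c) * F (A x + b)) =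
        fun x => ((l ∘ₗ A) x + (l b + c)) * F (A x + b) := by
      funext x
      rw [map_add, LinearMap.comp_apply]
      ring
    rw [e]; exact h3

/-- restriction to a line -/
theorem line {k : ℕ} {F : V → ℝ} (h : PF k F) (y w : V) :
    ∃ Q : Polynomial ℝ, Q.natDegree ≤ k ∧ ∀ s : ℝ, F (y + s • w) = Q.eval s := by
  induction h with
  | const k c => exact ⟨Polynomial.C c, by simp, fun s => by simp⟩
  | add _ _ h1 h2 =>
    obtain ⟨Q1, hQ1, h1⟩ := h1
    obtain ⟨Q2, hQ2, h2⟩ := h2
    refine ⟨Q1 + Q2, (Polynomial.natDegree_add_le _ _).trans (max_le hQ1 hQ2), fun s => ?_⟩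
    rw [Polynomial.eval_add, ← h1 s, ← h2 s]
  | @mul k F l c _ h =>
    obtain ⟨Q, hQ, h⟩ := h
    refine ⟨(Polynomial.C (l w) * Polynomial.X + Polynomial.C (l y + c)) * Q, ?_, fun s => ?_⟩
    · refine Polynomial.natDegree_mul_le.trans ?_
      have := Polynomial.natDegree_linear_le (a := l w) (b := l y + c)
      omega
    · rw [Polynomial.eval_mul, ← h s]
      simp only [Polynomial.eval_add, Polynomial.eval_mul, Polynomial.eval_C, Polynomial.eval_X,
        map_add, map_smul, smul_eq_mul]
      ring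

theorem card_zeros {k : ℕ} {F : V → ℝ} (h : PF k F) (y w : V) (hne : ∃ s : ℝ, F (y + s • w) ≠ 0)
    (B : Finset ℝ) (hB : ∀ s ∈ B, F (y + s • w) = 0) : B.card ≤ k := by
  obtain ⟨Q, hQ, hs⟩ := h.line y w
  have hQ0 : Q ≠ 0 := by
    rintro rfl
    obtain ⟨s, hs'⟩ := hne
    exact hs' (by rw [hs, Polynomial.eval_zero])
  have h1 : B.val ≤ Q.roots := by
    rw [Multiset.le_iff_subset B.nodup]
    intro s hsB
    rw [Polynomial.mem_roots hQ0, Polynomial.IsRoot, ← hs]
    exact hB s hsB
  calc B.card ≤ Q.roots.card := Multiset.card_le_card h1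
    _ ≤ Q.natDegree := Polynomial.card_roots' Q
    _ ≤ k := hQ

theorem vanish {k : ℕ} {F : V → ℝ} (h : PF k F) (y w : V)
    (h0 : ∀ s : ℝ, s ≠ 0 → F (y + s • w) = 0) : ∀ s : ℝ, F (y + s • w) = 0 := by
  by_contra hcon
  push Not at hcon
  have h1 := h.card_zeros y w hcon ((Finset.range (k + 1)).image fun n : ℕ => (n : ℝ) + 1) (by
    intro s hs
    rw [Finset.mem_image] at hs
    obtain ⟨n, -, rfl⟩ := hs
    exact h0 _ (by positivity))
  rw [Finset.card_image_of_injective _ (fun a b hab => by
    simpa using hab), Finset.card_range] at h1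
  omega

/-- division by an affine function -/
theorem div {k : ℕ} {F : V → ℝ} (h : PF k F) (l : V →ₗ[ℝ] ℝ) (c : ℝ) (w : V) :
    ∃ G : V → ℝ, PF (k - 1) G ∧ (k = 0 → ∀ x, G x = 0) ∧
      ∀ x, F x = F (x - (l x + c) • w) + (l x + c) * G x := by
  induction h with
  | const k a => exact ⟨fun _ => 0, const _ _, fun _ _ => rfl, fun x => by ring⟩
  | @add k F F' _ _ h1 h2 =>
    obtain ⟨G, hG, hG0, hG1⟩ := h1
    obtain ⟨G', hG', hG'0, hG'1⟩ := h2
    refine ⟨fun x => G x + G' x, add hG hG', fun hk x => ?_, fun x => ?_⟩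
    · simp only [hG0 hk x, hG'0 hk x, add_zero]
    · simp only
      nth_rewrite 1 [hG1 x, hG'1 x]
      ring
  | @mul k F l' c' hF h =>
    obtain ⟨G, hG, hG0, hG1⟩ := h
    refine ⟨fun x => ((l' - (l' w) • l) x + (c' - c * l' w)) * G x + l' w * F x, ?_, ?_, ?_⟩
    · refine add ?_ ?_
      · rcases Nat.eq_zero_or_pos k with hk | hk
        · have e : (fun x => ((l' - (l' w) • l) x + (c' - c * l' w)) * G x) = fun _ => 0 := by
            funext x
            rw [hG0 hk x, mul_zero]
          rw [e]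
          exact const _ _
        · have h3 := mul (l' - (l' w) • l) (c' - c * l' w) hG
          have e : k - 1 + 1 = k + 1 - 1 := by omega
          rwa [e] at h3
      · exact (hF.smul (l' w))
    · intro hk
      exact absurd hk (Nat.succ_ne_zero k)
    · intro x
      have h4 := hG1 x
      simp only [map_sub, map_smul, smul_eq_mul, LinearMap.sub_apply, LinearMap.smul_apply]
      linear_combination (l' x - (l x + c) * l' w + c') * h4

/-- division by an affine function on whose zero set `F` vanishes -/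
theorem div' {k : ℕ} {F : V → ℝ} (h : PF k F) (l : V →ₗ[ℝ] ℝ) (c : ℝ) (w : V) (hw : l w = 1)
    (h0 : ∀ x, l x + c = 0 → F x = 0) :
    ∃ G : V → ℝ, PF (k - 1) G ∧ (k = 0 → ∀ x, G x = 0) ∧ ∀ x, F x = (l x + c) * G x := by
  obtain ⟨G, hG, hG0, hG1⟩ := h.div l c w
  refine ⟨G, hG, hG0, fun x => ?_⟩
  rw [hG1 x, h0 (x - (l x + c) • w), zero_add]
  rw [map_sub, map_smul, hw, smul_eq_mul]
  ring

/-- In a plane: if `F` vanishes on the line `{h = 0}` but not identically, then at most `k - 1` points of
this line lie on another line on which `F` vanishes. -/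
theorem bad_card (l : V →ₗ[ℝ] ℝ) (c : ℝ) (w : V) (hw : l w = 1) (y0 w0 : V)
    (hpar : ∀ x, l x + c = 0 → ∃ s : ℝ, x = y0 + s • w0) (k : ℕ) :
    ∀ F : V → ℝ, PF k F → (∃ x, F x ≠ 0) → (∀ x, l x + c = 0 → F x = 0) → ∀ B : Finset V,
      (∀ y ∈ B, l y + c = 0 ∧ ∃ w' : V, l w' ≠ 0 ∧ ∀ s : ℝ, F (y + s • w') = 0) →
      B.card + 1 ≤ k := by
  classical
  induction k with
  | zero =>
    intro F hF hne h0 B hB
    obtain ⟨G, -, hG0, hG1⟩ := hF.div' l c w hw h0
    obtain ⟨x, hx⟩ := hne
    exact absurd (by rw [hG1 x, hG0 rfl x, mul_zero]) hx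
  | succ k ih =>
    intro F hF hne h0 B hB
    obtain ⟨G, hG, -, hG1⟩ := hF.div' l c w hw h0
    rw [Nat.add_sub_cancel] at hG
    have hGne : ∃ x, G x ≠ 0 := by
      obtain ⟨x, hx⟩ := hne
      refine ⟨x, fun h => hx ?_⟩
      rw [hG1 x, h, mul_zero]
    have hBG : ∀ y ∈ B, l y + c = 0 ∧ ∃ w' : V, l w' ≠ 0 ∧ ∀ s : ℝ, G (y + s • w') = 0 := by
      intro y hy
      obtain ⟨h1, w', hw', h2⟩ := hB y hy
      refine ⟨h1, w', hw', hG.vanish y w' fun s hs => ?_⟩
      have h3 := h2 s
      rw [hG1] at h3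
      rcases mul_eq_zero.1 h3 with h4 | h4
      · exfalso
        rw [map_add, map_smul, smul_eq_mul] at h4
        have h5 : s * l w' = 0 := by linarith
        rcases mul_eq_zero.1 h5 with h6 | h6
        · exact hs h6
        · exact hw' h6
      · exact h4
    by_cases hGl : ∀ x, l x + c = 0 → G x = 0
    · have := ih G hG hGne hGl B hBG
      omega
    · push Not at hGl
      obtain ⟨x0, hx0, hGx0⟩ := hGl
      have hs : ∀ y ∈ B, ∃ s : ℝ, y = y0 + s • w0 := fun y hy => hpar y (hB y hy).1
      choose! f hf using hs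
      obtain ⟨s0, hs0⟩ := hpar x0 hx0
      have h1 := hG.card_zeros y0 w0 ⟨s0, by rw [← hs0]; exact hGx0⟩ (B.image f) (by
        intro s hs
        rw [Finset.mem_image] at hs
        obtain ⟨y, hy, rfl⟩ := hs
        rw [← hf y hy]
        obtain ⟨-, w', -, h2⟩ := hBG y hy
        have h3 := h2 0
        rwa [zero_smul, add_zero] at h3)
      rw [Finset.card_image_of_injOn] at h1
      · omega
      · intro y hy y' hy' hyy
        rw [hf y hy, hf y' hy', hyy]

/-- powers of coordinates -/
theorem coord_pow (i : Fin 3) (e : ℕ) : PF e (fun x : Fin 3 → ℝ => x i ^ e) := by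
  induction e with
  | zero =>
    have e : (fun x : Fin 3 → ℝ => x i ^ 0) = fun _ => 1 := by
      funext x; rw [pow_zero]
    rw [e]; exact const _ _
  | succ e ih =>
    have h := mul (LinearMap.proj i : (Fin 3 → ℝ) →ₗ[ℝ] ℝ) 0 ih
    have e : (fun x : Fin 3 → ℝ => x i ^ (e + 1)) =
        fun x => ((LinearMap.proj i : (Fin 3 → ℝ) →ₗ[ℝ] ℝ) x + 0) * x i ^ e := by
      funext x
      rw [LinearMap.proj_apply, add_zero, pow_succ']
    rw [e]; exact h

/-- polynomials -/
theorem of_mv (F : MvPolynomial (Fin 3) ℝ) {k : ℕ} (h : F.totalDegree ≤ k) :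
    PF k (fun x : Fin 3 → ℝ => MvPolynomial.eval x F) := by
  have e : (fun x : Fin 3 → ℝ => MvPolynomial.eval x F) =
      fun x => ∑ d ∈ F.support, F.coeff d * (x 0 ^ d 0 * x 1 ^ d 1 * x 2 ^ d 2) := by
    funext x
    rw [MvPolynomial.eval_eq']
    refine Finset.sum_congr rfl fun d _ => ?_
    rw [Fin.prod_univ_three]
  rw [e]
  refine sum _ fun d hd => ?_
  refine smul ?_ _
  have h1 : d 0 + d 1 + d 2 ≤ k := by
    have h2 := MvPolynomial.le_totalDegree hd
    rw [Finsupp.sum_fintype _ _ (fun _ => rfl), Fin.sum_univ_three] at h2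
    omega
  exact (((coord_pow 0 (d 0)).mul' (coord_pow 1 (d 1))).mul' (coord_pow 2 (d 2))).mono h1

end PF

end Pool.Agent.MP_9673d9_co
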