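import Pool.Agent.MP_9673d9_co.Plane

/-!
# Three dimensions

`S` is a finite subset of a surface of degree `k` in three-space.  Then some plane through at least two
points of `S` has imbalance at most `3 k - 2`.
-/

set_option autoImplicit false

open Finset

namespace Pool.Agent.MP_9673d9_co

section General

variable {V : Type*} [AddCommGroup V] [Module ℝ V]

/-- rotating a hyperplane about a subspace of codimension two, through `p` -/
theorem rot_aux (S : Finset V) (p : V) (g e : V →ₗ[ℝ] ℝ)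
    (hgen : ∀ s ∈ S, g (s - p) = 0 → e (s - p) = 0) (hf0 : 0 ≤ ∑ s ∈ S, sg (g (s - p)))
    (hne : ∃ s ∈ S, g (s - p) ≠ 0) :
    ∃ σ : ℝ, ∃ a ∈ S, g (a - p) ≠ 0 ∧ σ * g (a - p) - e (a - p) = 0 ∧
      |∑ s ∈ S, sg (σ * g (s - p) - e (s - p))| ≤
        ((S.filter fun s => σ * g (s - p) - e (s - p) = 0 ∧ g (s - p) ≠ 0).card : ℤ) := by
  classical
  set N := S.filter fun s => g (s - p) ≠ 0 with hN
  set τ : V → ℝ := fun s => e (s - p) / g (s - p) with hτ
  set ψ : ℝ → ℤ := fun σ => ∑ s ∈ N, (if τ s ≤ σ then sg (g (s - p)) else - sg (g (s - p))) with hψ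
  have hNne : N.Nonempty := by
    obtain ⟨s, hs, h1⟩ := hne
    exact ⟨s, Finset.mem_filter.2 ⟨hs, h1⟩⟩
  have hsumN : ∑ s ∈ S, sg (g (s - p)) = ∑ s ∈ N, sg (g (s - p)) := by
    rw [hN, Finset.sum_filter]
    refine Finset.sum_congr rfl fun s _ => ?_
    by_cases h : g (s - p) = 0
    · rw [h, sg_zero, if_neg (by simp)]
    · rw [if_pos h]
  rw [hsumN] at hf0
  obtain ⟨b, hb, hbmax⟩ := Finset.exists_max_image N τ hNne
  have hψb : ψ (τ b) = ∑ s ∈ N, sg (g (s - p)) := by
    refine Finset.sum_congr rfl fun s hs => ?_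
    rw [if_pos (hbmax s hs)]
  have hN0 : (N.filter fun a => 0 ≤ ψ (τ a)).Nonempty :=
    ⟨b, Finset.mem_filter.2 ⟨hb, by rw [hψb]; exact hf0⟩⟩
  obtain ⟨a, ha, hamin⟩ := Finset.exists_min_image _ τ hN0
  rw [Finset.mem_filter] at ha
  have haN := Finset.mem_filter.1 ha.1
  -- the value just before
  have hm : ∑ s ∈ N, (if τ s < τ a then sg (g (s - p)) else - sg (g (s - p))) ≤ 0 := by
    rcases (N.filter fun s => τ s < τ a).eq_empty_or_nonempty with h0 | h0
    · have h1 : ∀ s ∈ N, ¬ τ s < τ a := by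
        intro s hs h2
        have h3 : s ∈ N.filter fun s => τ s < τ a := Finset.mem_filter.2 ⟨hs, h2⟩
        rw [h0] at h3
        exact absurd h3 (Finset.notMem_empty s)
      have h2 : ∑ s ∈ N, (if τ s < τ a then sg (g (s - p)) else - sg (g (s - p))) =
          - ∑ s ∈ N, sg (g (s - p)) := by
        rw [← Finset.sum_neg_distrib]
        refine Finset.sum_congr rfl fun s hs => ?_
        rw [if_neg (h1 s hs)]
      rw [h2]
      omega
    · obtain ⟨c, hc, hcmax⟩ := Finset.exists_max_image _ τ h0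
      rw [Finset.mem_filter] at hc
      have h2 : ∑ s ∈ N, (if τ s < τ a then sg (g (s - p)) else - sg (g (s - p))) = ψ (τ c) := by
        refine Finset.sum_congr rfl fun s hs => ?_
        by_cases h3 : τ s < τ a
        · rw [if_pos h3, if_pos (hcmax s (Finset.mem_filter.2 ⟨hs, h3⟩))]
        · rw [if_neg h3, if_neg]
          intro h4
          exact h3 (lt_of_le_of_lt h4 hc.2)
      rw [h2]
      by_contra h3
      have h4 := hamin c (Finset.mem_filter.2 ⟨hc.1, by omega⟩)
      exact absurd hc.2 (not_lt.2 h4)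
  have hplus : 0 ≤ ∑ s ∈ N, (if τ s ≤ τ a then sg (g (s - p)) else - sg (g (s - p))) := ha.2
  refine ⟨τ a, a, haN.1, haN.2, ?_, ?_⟩
  · simp only [hτ]
    rw [div_mul_cancel₀ _ haN.2, sub_self]
  -- the value
  have hval : ∑ s ∈ S, sg (τ a * g (s - p) - e (s - p)) =
      ∑ s ∈ N, (if τ s = τ a then 0 else if τ s < τ a then sg (g (s - p)) else
        - sg (g (s - p))) := by
    rw [hN, Finset.sum_filter]
    refine Finset.sum_congr rfl fun s hs => ?_
    by_cases h : g (s - p) = 0
    · rw [h, hgen s hs h, mul_zero, sub_zero, sg_zero, if_neg (by simp)]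
    · rw [if_pos h]
      have h1 : τ a * g (s - p) - e (s - p) = g (s - p) * (τ a - τ s) := by
        simp only [hτ]
        field_simp
      rw [h1]
      rcases lt_trichotomy (τ s) (τ a) with h2 | h2 | h2
      · rw [if_neg h2.ne, if_pos h2, sg_mul_pos (sub_pos.2 h2)]
      · rw [if_pos h2, h2, sub_self, mul_zero, sg_zero]
      · rw [if_neg h2.ne', if_neg (not_lt.2 h2.le)]
        have h3 : g (s - p) * (τ a - τ s) = -(g (s - p) * (τ s - τ a)) := by ring
        rw [h3, sg_neg_arg, sg_mul_pos (sub_pos.2 h2)]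
  have hA1 : ∑ s ∈ N, (if τ s ≤ τ a then sg (g (s - p)) else - sg (g (s - p))) =
      ∑ s ∈ N, (if τ s = τ a then 0 else if τ s < τ a then sg (g (s - p)) else
        - sg (g (s - p))) + ∑ s ∈ N, (if τ s = τ a then sg (g (s - p)) else 0) := by
    rw [← Finset.sum_add_distrib]
    refine Finset.sum_congr rfl fun s _ => ?_
    rcases lt_trichotomy (τ s) (τ a) with h2 | h2 | h2
    · rw [if_pos h2.le, if_neg h2.ne, if_pos h2, if_neg h2.ne, add_zero]
    · rw [if_pos h2.le, if_pos h2, if_pos h2, zero_add]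
    · rw [if_neg (not_le.2 h2), if_neg h2.ne', if_neg (not_lt.2 h2.le), if_neg h2.ne', add_zero]
  have hA2 : ∑ s ∈ N, (if τ s < τ a then sg (g (s - p)) else - sg (g (s - p))) =
      ∑ s ∈ N, (if τ s = τ a then 0 else if τ s < τ a then sg (g (s - p)) else
        - sg (g (s - p))) - ∑ s ∈ N, (if τ s = τ a then sg (g (s - p)) else 0) := by
    rw [← Finset.sum_sub_distrib]
    refine Finset.sum_congr rfl fun s _ => ?_
    rcases lt_trichotomy (τ s) (τ a) with h2 | h2 | h2
    · rw [if_pos h2, if_neg h2.ne, if_neg h2.ne, sub_zero]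
    · rw [if_neg (not_lt.2 h2.ge), if_pos h2, if_pos h2, zero_sub]
    · rw [if_neg (not_lt.2 h2.le), if_neg h2.ne', if_neg h2.ne', sub_zero]
  have hA3 : |∑ s ∈ N, (if τ s = τ a then sg (g (s - p)) else 0)| ≤
      ((S.filter fun s => τ a * g (s - p) - e (s - p) = 0 ∧ g (s - p) ≠ 0).card : ℤ) := by
    rw [← Finset.sum_filter]
    refine (Finset.abs_sum_le_sum_abs _ _).trans ?_
    refine (Finset.sum_le_sum fun t _ => abs_sg_le (g (t - p))).trans ?_
    rw [Finset.sum_const, nsmul_eq_mul, mul_one]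
    refine Int.ofNat_le.2 (Finset.card_le_card fun s hs => ?_)
    rw [Finset.mem_filter, hN, Finset.mem_filter] at hs
    refine Finset.mem_filter.2 ⟨hs.1.1, ?_, hs.1.2⟩
    rw [← hs.2]
    simp only [hτ]
    rw [div_mul_cancel₀ _ hs.1.2, sub_self]
  rw [hval]
  rw [hA1] at hplus
  rw [hA2] at hm
  rw [abs_le] at hA3 ⊢
  omega

/-- rotating a hyperplane: general version -/
theorem rot3 (S : Finset V) (p : V) (g e : V →ₗ[ℝ] ℝ)
    (hne : ∃ s ∈ S, g (s - p) ≠ 0 ∨ e (s - p) ≠ 0) :
    ∃ g1 : V →ₗ[ℝ] ℝ, (∃ a b : ℝ, a ≠ 0 ∧ ∀ y, g1 y = a * g y + b * e y) ∧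
      ∃ σ : ℝ, ∃ a ∈ S, g1 (a - p) ≠ 0 ∧ σ * g1 (a - p) - e (a - p) = 0 ∧
      |∑ s ∈ S, sg (σ * g1 (s - p) - e (s - p))| ≤
        ((S.filter fun s => σ * g1 (s - p) - e (s - p) = 0 ∧ g1 (s - p) ≠ 0).card : ℤ) := by
  classical
  obtain ⟨μ, hμ⟩ := Infinite.exists_notMem_finset (S.image fun s => -(g (s - p) / e (s - p)))
  have hgen : ∀ s ∈ S, (g + μ • e) (s - p) = 0 → g (s - p) = 0 ∧ e (s - p) = 0 := by
    intro s hs h
    rw [LinearMap.add_apply, LinearMap.smul_apply, smul_eq_mul] at h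
    by_cases h1 : e (s - p) = 0
    · rw [h1, mul_zero, add_zero] at h
      exact ⟨h, h1⟩
    · exfalso
      apply hμ
      rw [Finset.mem_image]
      refine ⟨s, hs, ?_⟩
      rw [neg_eq_iff_eq_neg, div_eq_iff h1]
      linear_combination h
  obtain ⟨s0, hs0, h0⟩ := hne
  have hs0' : (g + μ • e) (s0 - p) ≠ 0 := by
    intro h
    obtain ⟨h1, h2⟩ := hgen s0 hs0 h
    rcases h0 with h0 | h0
    · exact h0 h1
    · exact h0 h2
  by_cases hf : 0 ≤ ∑ s ∈ S, sg ((g + μ • e) (s - p))
  · refine ⟨g + μ • e, ⟨1, μ, one_ne_zero, fun y => ?_⟩,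
      rot_aux S p (g + μ • e) e (fun s hs h => (hgen s hs h).2) hf ⟨s0, hs0, hs0'⟩⟩
    rw [LinearMap.add_apply, LinearMap.smul_apply, smul_eq_mul, one_mul]
  · refine ⟨-(g + μ • e), ⟨-1, -μ, by norm_num, fun y => ?_⟩,
      rot_aux S p (-(g + μ • e)) e (fun s hs h => (hgen s hs (by
        rw [LinearMap.neg_apply] at h
        exact neg_eq_zero.1 h)).2) ?_ ⟨s0, hs0, ?_⟩⟩
    · rw [LinearMap.neg_apply, LinearMap.add_apply, LinearMap.smul_apply, smul_eq_mul]
      ring
    · have h1 : ∑ s ∈ S, sg ((-(g + μ • e)) (s - p)) = - ∑ s ∈ S, sg ((g + μ • e) (s - p)) := by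
        rw [← Finset.sum_neg_distrib]
        refine Finset.sum_congr rfl fun s _ => ?_
        rw [LinearMap.neg_apply, sg_neg_arg]
      rw [h1]
      omega
    · rw [LinearMap.neg_apply]
      exact neg_ne_zero.2 hs0'

omit [AddCommGroup V] [Module ℝ V] in
/-- a small perturbation does not change the non-zero signs -/
theorem tilt (S : Finset V) (h L : V → ℝ) :
    ∃ ε : ℝ, 0 < ε ∧ ∀ ε' : ℝ, 0 < ε' → ε' ≤ ε → ∀ s ∈ S, h s ≠ 0 →
      sg (h s + ε' * L s) = sg (h s) := by
  classical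
  induction S using Finset.induction_on with
  | empty => exact ⟨1, one_pos, fun _ _ _ s hs => absurd hs (Finset.notMem_empty s)⟩
  | insert a S ha ih =>
    obtain ⟨ε, hε, hε1⟩ := ih
    by_cases h0 : h a = 0
    · refine ⟨ε, hε, fun ε' h1 h2 s hs h3 => ?_⟩
      rw [Finset.mem_insert] at hs
      rcases hs with rfl | hs
      · exact absurd h0 h3
      · exact hε1 ε' h1 h2 s hs h3
    · have hpos : 0 < |h a| / (|L a| + 1) := div_pos (abs_pos.2 h0) (by positivity)
      refine ⟨min ε (|h a| / (|L a| + 1)), lt_min hε hpos, fun ε' h1 h2 s hs h3 => ?_⟩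
      rw [Finset.mem_insert] at hs
      rcases hs with rfl | hs
      · have h4 : ε' * (|L s| + 1) ≤ |h s| := by
          have h5 := h2.trans (min_le_right _ _)
          rwa [le_div_iff₀ (by positivity)] at h5
        have h6 : |ε' * L s| < |h s| := by
          rw [abs_mul, abs_of_pos h1]
          linarith
        rw [abs_lt] at h6
        rcases lt_or_gt_of_ne h3 with h7 | h7
        · rw [abs_of_neg h7] at h6
          rw [sg_neg h7, sg_neg (by linarith)]
        · rw [abs_of_pos h7] at h6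
          rw [sg_pos h7, sg_pos (by linarith)]
      · exact hε1 ε' h1 (h2.trans (min_le_left _ _)) s hs h3

end General

/-- functionals adapted to a vector -/
theorem exists_frame (w : Fin 3 → ℝ) (hw : w ≠ 0) :
    ∃ κ g e : (Fin 3 → ℝ) →ₗ[ℝ] ℝ, κ w = 1 ∧ g w = 0 ∧ e w = 0 ∧
      (∀ y, g y = 0 → e y = 0 → y = κ y • w) ∧
      (∀ a b : ℝ, (∀ y, a * g y + b * e y = 0) → a = 0 ∧ b = 0) := by
  obtain ⟨i, hi⟩ : ∃ i, w i ≠ 0 := by
    by_contra h
    push Not at h
    exact hw (funext h)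
  obtain ⟨j, k, hij, hik, hjk, hall⟩ : ∃ j k : Fin 3, i ≠ j ∧ i ≠ k ∧ j ≠ k ∧
      ∀ m : Fin 3, m = i ∨ m = j ∨ m = k := by
    fin_cases i
    · exact ⟨1, 2, by decide, by decide, by decide, by decide⟩
    · exact ⟨0, 2, by decide, by decide, by decide, by decide⟩
    · exact ⟨0, 1, by decide, by decide, by decide, by decide⟩
  let pr : Fin 3 → (Fin 3 → ℝ) →ₗ[ℝ] ℝ := fun m => LinearMap.proj m
  have hpr : ∀ (m : Fin 3) (y : Fin 3 → ℝ), pr m y = y m := fun m y => rfl
  refine ⟨(w i)⁻¹ • pr i, w i • pr j - w j • pr i, w i • pr k - w k • pr i, ?_, ?_, ?_, ?_, ?_⟩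
  · simp only [LinearMap.smul_apply, hpr, smul_eq_mul]
    exact inv_mul_cancel₀ hi
  · simp only [LinearMap.smul_apply, LinearMap.sub_apply, hpr, smul_eq_mul]
    ring
  · simp only [LinearMap.smul_apply, LinearMap.sub_apply, hpr, smul_eq_mul]
    ring
  · intro y hg he
    simp only [LinearMap.smul_apply, LinearMap.sub_apply, hpr, smul_eq_mul] at hg he ⊢
    funext m
    rw [Pi.smul_apply, smul_eq_mul]
    rcases hall m with rfl | rfl | rfl
    · field_simp
    · field_simp
      linear_combination hg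
    · field_simp
      linear_combination he
  · intro a b h
    constructor
    · have h1 := h (Pi.single j 1)
      simp only [LinearMap.smul_apply, LinearMap.sub_apply, hpr, smul_eq_mul, Pi.single_apply,
        if_neg hij, if_neg hjk.symm, if_true] at h1
      have h2 : a * w i = 0 := by linear_combination h1
      exact (mul_eq_zero.1 h2).resolve_right hi
    · have h1 := h (Pi.single k 1)
      simp only [LinearMap.smul_apply, LinearMap.sub_apply, hpr, smul_eq_mul, Pi.single_apply,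
        if_neg hik, if_neg hjk, if_true] at h1
      have h2 : b * w i = 0 := by linear_combination h1
      exact (mul_eq_zero.1 h2).resolve_right hi

/-- if all planes through two points of `S` have large imbalance then `F` vanishes on some plane
through `p` and `q` -/
theorem exists_plane {k : ℕ} {F : (Fin 3 → ℝ) → ℝ} (hF : PF k F) (hk : 1 ≤ k)
    (S : Finset (Fin 3 → ℝ)) (hS : ∀ s ∈ S, F s = 0)
    (hbad : ∀ (l : (Fin 3 → ℝ) →ₗ[ℝ] ℝ) (c : ℝ), l ≠ 0 →
      2 ≤ (S.filter fun s => l s + c = 0).card → 3 * (k : ℤ) - 2 < |∑ s ∈ S, sg (l s + c)|)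
    (p q : Fin 3 → ℝ) (hp : p ∈ S) (hq : q ∈ S) (hpq : p ≠ q) :
    ∃ (l : (Fin 3 → ℝ) →ₗ[ℝ] ℝ) (c : ℝ), l ≠ 0 ∧ l p + c = 0 ∧ l q + c = 0 ∧
      ∀ x, l x + c = 0 → F x = 0 := by
  classical
  have hw : q - p ≠ 0 := sub_ne_zero.2 hpq.symm
  obtain ⟨κ, g, e, hκw, hgw, hew, hker, hind⟩ := exists_frame (q - p) hw
  -- `S` is not contained in the line
  have hne : ∃ s ∈ S, g (s - p) ≠ 0 ∨ e (s - p) ≠ 0 := by
    by_contra hcon
    push Not at hcon
    have hg0 : g ≠ 0 := by
      rintro rfl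
      have h1 := hind 1 0 (by
        intro y
        rw [LinearMap.zero_apply]
        ring)
      exact one_ne_zero h1.1
    have h1 : ∀ s ∈ S, g s + -(g p) = 0 := by
      intro s hs
      have h2 := (hcon s hs).1
      rw [map_sub] at h2
      linarith
    have h3 := hbad g (-(g p)) hg0 (by
      have h4 : ({p, q} : Finset (Fin 3 → ℝ)) ⊆ S.filter fun s => g s + -(g p) = 0 := by
        intro x hx
        rw [Finset.mem_insert, Finset.mem_singleton] at hx
        rcases hx with rfl | rfl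
        · exact Finset.mem_filter.2 ⟨hp, h1 _ hp⟩
        · exact Finset.mem_filter.2 ⟨hq, h1 _ hq⟩
      have h5 := Finset.card_le_card h4
      rwa [Finset.card_pair hpq] at h5)
    rw [Finset.sum_congr rfl (fun s hs => by rw [h1 s hs, sg_zero] : ∀ s ∈ S,
      sg (g s + -(g p)) = 0), Finset.sum_const_zero, abs_zero] at h3
    omega
  obtain ⟨g1, ⟨a0, b0, ha0, hg1⟩, σ, a, ha, hga, hha, hval⟩ := rot3 S p g e hne
  let h : (Fin 3 → ℝ) →ₗ[ℝ] ℝ := σ • g1 - e
  have hh : ∀ y, h y = σ * g1 y - e y := fun y => rfl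
  have hg1w : g1 (q - p) = 0 := by rw [hg1, hgw, hew]; ring
  have hhw : h (q - p) = 0 := by rw [hh, hg1w, hew]; ring
  have hha' : h (a - p) = 0 := by rw [hh]; exact hha
  have hne0 : h ≠ 0 := by
    intro h0
    have h1 := hind (σ * a0) (σ * b0 - 1) (by
      intro y
      have h2 : h y = 0 := by rw [h0]; rfl
      rw [hh, hg1] at h2
      linear_combination h2)
    obtain ⟨h2, h3⟩ := h1
    have h4 : σ = 0 := (mul_eq_zero.1 h2).resolve_right ha0
    rw [h4] at h3
    norm_num at h3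
  let A2 : (Fin 3 → ℝ) →ₗ[ℝ] ℝ := (g1 (a - p))⁻¹ • g1
  let A1 : (Fin 3 → ℝ) →ₗ[ℝ] ℝ := κ - κ (a - p) • A2
  have hA2 : ∀ y, A2 y = (g1 (a - p))⁻¹ * g1 y := fun y => rfl
  have hA1 : ∀ y, A1 y = κ y - κ (a - p) * A2 y := fun y => rfl
  have hA2a : A2 (a - p) = 1 := by rw [hA2]; exact inv_mul_cancel₀ hga
  have hA2w : A2 (q - p) = 0 := by rw [hA2, hg1w, mul_zero]
  have hA1a : A1 (a - p) = 0 := by rw [hA1, hA2a]; ring
  have hA1w : A1 (q - p) = 1 := by rw [hA1, hA2w, hκw]; ring
  -- coordinates on the plane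
  have hcoord : ∀ y, h y = 0 → y = A1 y • (q - p) + A2 y • (a - p) := by
    intro y hy
    have h1 : g1 (y - A2 y • (a - p)) = 0 := by
      rw [map_sub, map_smul, smul_eq_mul, hA2]
      field_simp
      ring
    have h2 : h (y - A2 y • (a - p)) = 0 := by
      rw [map_sub, map_smul, hha', smul_zero, sub_zero, hy]
    have h3 : e (y - A2 y • (a - p)) = 0 := by
      rw [hh, h1] at h2
      linarith
    have h4 : g (y - A2 y • (a - p)) = 0 := by
      rw [hg1, h3] at h1
      have h5 : a0 * g (y - A2 y • (a - p)) = 0 := by linarith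
      exact (mul_eq_zero.1 h5).resolve_left ha0
    have h5 := hker _ h4 h3
    have h6 : κ (y - A2 y • (a - p)) = A1 y := by
      rw [map_sub, map_smul, smul_eq_mul, hA1]
      ring
    rw [h6] at h5
    rw [← h5]
    abel
  by_cases hP0 : ∀ x, h x + -(h p) = 0 → F x = 0
  · refine ⟨h, -(h p), hne0, by ring, ?_, hP0⟩
    have h1 := hhw
    rw [map_sub] at h1
    linarith
  exfalso
  push Not at hP0
  obtain ⟨x0, hx0, hFx0⟩ := hP0
  have hx0' : h (x0 - p) = 0 := by rw [map_sub]; linarith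
  let B : ℝ × ℝ →ₗ[ℝ] (Fin 3 → ℝ) :=
    (LinearMap.fst ℝ ℝ ℝ).smulRight (q - p) + (LinearMap.snd ℝ ℝ ℝ).smulRight (a - p)
  have hB : ∀ t : ℝ × ℝ, B t = t.1 • (q - p) + t.2 • (a - p) := fun t => rfl
  set T := S.filter fun s => h (s - p) = 0 with hT
  let φ : (Fin 3 → ℝ) → ℝ × ℝ := fun s => (A1 (s - p), A2 (s - p))
  have hBφ : ∀ x, h (x - p) = 0 → B (φ x) + p = x := by
    intro x hx
    rw [hB]
    have h1 := hcoord (x - p) hx
    change A1 (x - p) • (q - p) + A2 (x - p) • (a - p) + p = x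
    rw [← h1, sub_add_cancel]
  have hφinj : Set.InjOn φ T := by
    intro s hs t ht hst
    rw [Finset.mem_coe, hT, Finset.mem_filter] at hs ht
    rw [← hBφ s hs.2, ← hBφ t ht.2, hst]
  have hpT : p ∈ T := by
    rw [hT, Finset.mem_filter, sub_self, map_zero]
    exact ⟨hp, rfl⟩
  have hqT : q ∈ T := Finset.mem_filter.2 ⟨hq, hhw⟩
  have haT : a ∈ T := Finset.mem_filter.2 ⟨ha, hha'⟩
  have hφp : φ p = (0, 0) := by
    change (A1 (p - p), A2 (p - p)) = (0, 0)
    rw [sub_self, map_zero, map_zero]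
  have hφq : φ q = (1, 0) := by
    change (A1 (q - p), A2 (q - p)) = (1, 0)
    rw [hA1w, hA2w]
  have hφa : φ a = (0, 1) := by
    change (A1 (a - p), A2 (a - p)) = (0, 1)
    rw [hA1a, hA2a]
  have hsumφ : ∀ α β γ : ℝ, ∑ t ∈ T.image φ, sg (α * t.1 + β * t.2 + γ) =
      ∑ s ∈ T, sg (α * A1 (s - p) + β * A2 (s - p) + γ) := by
    intro α β γ
    rw [Finset.sum_image hφinj]
  obtain ⟨α, β, γ, h1, h2⟩ := planar (hF.comp B p) ⟨φ x0, by rwa [hBφ x0 hx0']⟩ (T.image φ) (by
      intro t ht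
      rw [Finset.mem_image] at ht
      obtain ⟨s, hs, rfl⟩ := ht
      rw [hT, Finset.mem_filter] at hs
      rw [hBφ s hs.2]
      exact hS s hs.1) (by
      intro α β γ h0
      have e1 := h0 (φ p) (Finset.mem_image_of_mem φ hpT)
      have e2 := h0 (φ q) (Finset.mem_image_of_mem φ hqT)
      have e3 := h0 (φ a) (Finset.mem_image_of_mem φ haT)
      rw [hφp] at e1
      rw [hφq] at e2
      rw [hφa] at e3
      simp only at e1 e2 e3
      constructor <;> linarith) (∑ s ∈ S, sg (h (s - p))) (by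
      have e1 : ∑ s ∈ S, sg (h (s - p)) = ∑ s ∈ S, sg (σ * g1 (s - p) - e (s - p)) := rfl
      rw [e1]
      refine hval.trans ?_
      rw [Finset.card_image_of_injOn hφinj]
      have e2 : (S.filter fun s => σ * g1 (s - p) - e (s - p) = 0 ∧ g1 (s - p) ≠ 0) ⊆ T.erase p := by
        intro s hs
        rw [Finset.mem_filter] at hs
        refine Finset.mem_erase.2 ⟨?_, Finset.mem_filter.2 ⟨hs.1, hs.2.1⟩⟩
        rintro rfl
        apply hs.2.2
        rw [sub_self, map_zero]
      have e3 := Finset.card_le_card e2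
      rw [Finset.card_erase_of_mem hpT] at e3
      have e4 : 0 < T.card := Finset.card_pos.2 ⟨p, hpT⟩
      omega)
  rw [hsumφ] at h2
  have h1' : 2 ≤ (T.filter fun s => α * A1 (s - p) + β * A2 (s - p) + γ = 0).card := by
    rw [Finset.filter_image, Finset.card_image_of_injOn (hφinj.mono (by
      intro x hx
      rw [Finset.mem_coe, Finset.mem_filter] at hx
      exact hx.1))] at h1
    exact h1
  obtain ⟨ε, hε, hε1⟩ := tilt S (fun s => h (s - p))
    (fun s => α * A1 (s - p) + β * A2 (s - p) + γ)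
  let l : (Fin 3 → ℝ) →ₗ[ℝ] ℝ := h + ε • (α • A1 + β • A2)
  have hl : ∀ y, l y = h y + ε * (α * A1 y + β * A2 y) := fun y => rfl
  have hlc : ∀ s, l s + (-(l p) + ε * γ) =
      h (s - p) + ε * (α * A1 (s - p) + β * A2 (s - p) + γ) := by
    intro s
    have h3 := hl (s - p)
    rw [map_sub] at h3
    linear_combination h3
  have hl0 : l ≠ 0 := by
    intro h0
    have e1 : l (q - p) = 0 := by rw [h0]; rfl
    have e2 : l (a - p) = 0 := by rw [h0]; rfl
    rw [hl, hhw, hA1w, hA2w] at e1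
    rw [hl, hha', hA1a, hA2a] at e2
    have e3 : α = 0 := by
      have : ε * α = 0 := by linear_combination e1
      exact (mul_eq_zero.1 this).resolve_left hε.ne'
    have e4 : β = 0 := by
      have : ε * β = 0 := by linear_combination e2
      exact (mul_eq_zero.1 this).resolve_left hε.ne'
    apply hne0
    refine LinearMap.ext fun y => ?_
    have e5 : l y = 0 := by rw [h0]; rfl
    rw [hl, e3, e4] at e5
    rw [LinearMap.zero_apply]
    linear_combination e5
  have h3 := hbad l (-(l p) + ε * γ) hl0 (by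
    refine h1'.trans (Finset.card_le_card fun s hs => ?_)
    rw [Finset.mem_filter, hT, Finset.mem_filter] at hs
    refine Finset.mem_filter.2 ⟨hs.1.1, ?_⟩
    rw [hlc, hs.1.2, hs.2]
    ring)
  have h4 : ∑ s ∈ S, sg (l s + (-(l p) + ε * γ)) = ∑ s ∈ S, sg (h (s - p)) +
      ∑ s ∈ T, sg (α * A1 (s - p) + β * A2 (s - p) + γ) := by
    rw [hT, Finset.sum_filter, ← Finset.sum_add_distrib]
    refine Finset.sum_congr rfl fun s hs => ?_
    rw [hlc]
    by_cases h0 : h (s - p) = 0
    · rw [if_pos h0, h0, zero_add, sg_zero, zero_add, mul_comm, sg_mul_pos hε]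
    · rw [if_neg h0, add_zero]
      exact hε1 ε hε le_rfl s hs h0
  rw [h4] at h3
  omega

/-- finite subsets of a surface of degree `k` -/
theorem surface (k : ℕ) : ∀ F : (Fin 3 → ℝ) → ℝ, PF k F → (∃ x, F x ≠ 0) →
    ∀ S : Finset (Fin 3 → ℝ), 2 ≤ S.card → (∀ s ∈ S, F s = 0) →
    ∃ (l : (Fin 3 → ℝ) →ₗ[ℝ] ℝ) (c : ℝ), l ≠ 0 ∧ 2 ≤ (S.filter fun s => l s + c = 0).card ∧
      |∑ s ∈ S, sg (l s + c)| ≤ 3 * (k : ℤ) - 2 := by
  classical
  induction k with
  | zero =>
    intro F hF hne S hS2 hS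
    exfalso
    obtain ⟨s, hs⟩ : S.Nonempty := by
      rw [← Finset.card_pos]
      omega
    obtain ⟨x, hx⟩ := hne
    have h1 := hF.card_zeros s (x - s) ⟨1, by rwa [one_smul, add_sub_cancel]⟩ {0} (by
      intro t ht
      rw [Finset.mem_singleton] at ht
      rw [ht, zero_smul, add_zero]
      exact hS s hs)
    simp at h1
  | succ k ih =>
    intro F hF hne S hS2 hS
    by_contra hcon
    push Not at hcon
    have hbad : ∀ (l : (Fin 3 → ℝ) →ₗ[ℝ] ℝ) (c : ℝ), l ≠ 0 →
        2 ≤ (S.filter fun s => l s + c = 0).card →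
        3 * ((k + 1 : ℕ) : ℤ) - 2 < |∑ s ∈ S, sg (l s + c)| := hcon
    obtain ⟨p, hp, q, hq, hpq⟩ := Finset.one_lt_card.1 (by omega : 1 < S.card)
    obtain ⟨l, c, hl, hlp, hlq, hl0⟩ := exists_plane hF (by omega) S hS hbad p q hp hq hpq
    obtain ⟨w0, hw0⟩ : ∃ w, l w ≠ 0 := by
      by_contra h
      push Not at h
      exact hl (LinearMap.ext h)
    obtain ⟨G, hG, -, hG1⟩ := hF.div' l c ((l w0)⁻¹ • w0) (by
      rw [map_smul, smul_eq_mul, inv_mul_cancel₀ hw0]) hl0
    rw [Nat.add_sub_cancel] at hG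
    have hGne : ∃ x, G x ≠ 0 := by
      obtain ⟨x, hx⟩ := hne
      refine ⟨x, fun h => hx ?_⟩
      rw [hG1, h, mul_zero]
    -- a point off the plane
    obtain ⟨r, hr, hlr⟩ : ∃ r ∈ S, l r + c ≠ 0 := by
      by_contra h
      push Not at h
      have h3 := hbad l c hl (by
        rw [Finset.filter_true_of_mem h]
        exact hS2)
      rw [Finset.sum_congr rfl (fun s hs => by rw [h s hs, sg_zero] : ∀ s ∈ S,
        sg (l s + c) = 0), Finset.sum_const_zero, abs_zero] at h3
      omega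
    have hGS : ∀ s ∈ S, G s = 0 := by
      intro s hs
      by_cases h0 : l s + c = 0
      · have hsr : s ≠ r := by
          rintro rfl
          exact hlr h0
        obtain ⟨l', c', -, h1, h2, h3⟩ := exists_plane hF (by omega) S hS hbad s r hs hr hsr
        have h4 := hG.vanish s (r - s) (by
          intro t ht
          have h5 : F (s + t • (r - s)) = 0 := by
            apply h3
            rw [map_add, map_smul, map_sub, smul_eq_mul]
            linear_combination (1 - t) * h1 + t * h2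
          rw [hG1] at h5
          refine (mul_eq_zero.1 h5).resolve_left ?_
          rw [map_add, map_smul, map_sub, smul_eq_mul]
          intro h6
          have h7 : t * (l r + c) = 0 := by linear_combination h6 - (1 - t) * h0
          rcases mul_eq_zero.1 h7 with h8 | h8
          · exact ht h8
          · exact hlr h8) 0
        rwa [zero_smul, add_zero] at h4
      · have h1 := hS s hs
        rw [hG1] at h1
        exact (mul_eq_zero.1 h1).resolve_left h0
    obtain ⟨l', c', h1, h2, h3⟩ := ih G hG hGne S hS2 hGS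
    have h4 := hbad l' c' h1 h2
    omega

/-- with exceptional points -/
theorem surface' (k : ℕ) (F : (Fin 3 → ℝ) → ℝ) (hF : PF k F) (hF0 : ∃ x, F x ≠ 0)
    (S : Finset (Fin 3 → ℝ)) (hS2 : 2 ≤ S.card) :
    ∃ (l : (Fin 3 → ℝ) →ₗ[ℝ] ℝ) (c : ℝ), l ≠ 0 ∧ 2 ≤ (S.filter fun s => l s + c = 0).card ∧
      |∑ s ∈ S, sg (l s + c)| ≤ 3 * (k : ℤ) - 2 + ((S.filter fun s => F s ≠ 0).card : ℤ) := by
  classical
  have hcard := Finset.card_filter_add_card_filter_not (s := S) (fun s => F s = 0)
  have hk0 : k = 0 → (S.filter fun s => F s = 0).card = 0 := by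
    rintro rfl
    rw [Finset.card_eq_zero, Finset.filter_eq_empty_iff]
    intro s _ hs
    obtain ⟨x, hx⟩ := hF0
    have h1 := hF.card_zeros s (x - s) ⟨1, by rwa [one_smul, add_sub_cancel]⟩ {0} (by
      intro t ht
      rw [Finset.mem_singleton] at ht
      rwa [ht, zero_smul, add_zero])
    simp at h1
  rcases Nat.lt_or_ge (S.filter fun s => F s = 0).card 2 with h | h
  · -- any plane through two points
    obtain ⟨p, hp, q, hq, hpq⟩ := Finset.one_lt_card.1 (by omega : 1 < S.card)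
    obtain ⟨κ, g, e, hκw, hgw, hew, hker, hind⟩ := exists_frame (q - p) (sub_ne_zero.2 hpq.symm)
    have hgp : g p + -(g p) = 0 := by ring
    have hgq : g q + -(g p) = 0 := by
      rw [map_sub] at hgw
      linarith
    have h2 : 2 ≤ (S.filter fun s => g s + -(g p) = 0).card := by
      have h4 : ({p, q} : Finset (Fin 3 → ℝ)) ⊆ S.filter fun s => g s + -(g p) = 0 := by
        intro x hx
        rw [Finset.mem_insert, Finset.mem_singleton] at hx
        rcases hx with rfl | rfl
        · exact Finset.mem_filter.2 ⟨hp, hgp⟩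
        · exact Finset.mem_filter.2 ⟨hq, hgq⟩
      have h5 := Finset.card_le_card h4
      rwa [Finset.card_pair hpq] at h5
    refine ⟨g, -(g p), ?_, h2, ?_⟩
    · rintro rfl
      have h1 := hind 1 0 (by
        intro y
        rw [LinearMap.zero_apply]
        ring)
      exact one_ne_zero h1.1
    · have h3 : |∑ s ∈ S, sg (g s + -(g p))| ≤
          ((S.filter fun s => ¬ g s + -(g p) = 0).card : ℤ) := by
        have h4 : ∑ s ∈ S, sg (g s + -(g p)) =
            ∑ s ∈ S.filter (fun s => ¬ g s + -(g p) = 0), sg (g s + -(g p)) := by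
          rw [Finset.sum_filter]
          refine Finset.sum_congr rfl fun s _ => ?_
          by_cases h5 : g s + -(g p) = 0
          · rw [if_neg (not_not.2 h5), h5, sg_zero]
          · rw [if_pos h5]
        rw [h4]
        refine (Finset.abs_sum_le_sum_abs _ _).trans ?_
        refine (Finset.sum_le_sum fun t _ => abs_sg_le _).trans ?_
        rw [Finset.sum_const, nsmul_eq_mul, mul_one]
      have h4 := Finset.card_filter_add_card_filter_not (s := S) (fun s => g s + -(g p) = 0)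
      have h5 : (S.filter fun s => ¬ F s = 0).card = (S.filter fun s => F s ≠ 0).card := rfl
      omega
  · obtain ⟨l, c, h1, h2, h3⟩ := surface k F hF hF0 (S.filter fun s => F s = 0) h
      (fun s hs => (Finset.mem_filter.1 hs).2)
    refine ⟨l, c, h1, ?_, ?_⟩
    · refine h2.trans (Finset.card_le_card fun s hs => ?_)
      rw [Finset.mem_filter, Finset.mem_filter] at hs
      exact Finset.mem_filter.2 ⟨hs.1.1, hs.2⟩
    · rw [← Finset.sum_filter_add_sum_filter_not S (fun s => F s = 0)]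
      refine (abs_add_le _ _).trans (add_le_add h3 ?_)
      refine (Finset.abs_sum_le_sum_abs _ _).trans ?_
      refine (Finset.sum_le_sum fun t _ => abs_sg_le _).trans ?_
      rw [Finset.sum_const, nsmul_eq_mul, mul_one]

end Pool.Agent.MP_9673d9_co
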